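import Pool.Agent.Lib.MP_50bb2e_nt.MT.Iface

/-!
Module KFI: bounded fibres of `sp` (finiteness of the class group, finitely generated units).
-/

open NumberField IsDedekindDomain Filter Topology

namespace Pool.Agent.Lib.MP_50bb2e_nt.MT.H50

/-- If all orders of `a` are even then `(a)` is a square. -/
theorem exists_sq (h : OrdS) {F : Type} [Field F] [NumberField F] (a : 𝓞 F) (ha : a ≠ 0)
    (d : Fˣ) (hd : (d : F) = algebraMap (𝓞 F) F a) (hs : sp (cls d) = ∅) :
    ∃ b : Ideal (𝓞 F), b ≠ ⊥ ∧ Ideal.span {a} = b ^ 2 := by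
  classical
  obtain ⟨h1, h2, _, _⟩ := h F
  let I : Ideal (𝓞 F) := Ideal.span {a}
  have hI : I ≠ 0 := by
    intro h0
    exact ha (by simpa [I] using h0)
  let n : Pr F → ℕ := fun v => (Associates.mk v.asIdeal).count (Associates.mk I).factors
  have heven : ∀ v : Pr F, ¬ Odd (n v) := by
    intro v hv
    have h3 : v.valuation F (d : F) = WithZero.exp (-(n v : ℤ)) := by
      rw [hd, HeightOneSpectrum.valuation_of_algebraMap, HeightOneSpectrum.intValuation_if_neg _ ha]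
    have h4 : v ∈ sp (cls d) := by
      rw [h2, h1, h3, WithZero.log_exp]
      simpa using hv
    rw [hs] at h4
    exact absurd h4 (Finset.notMem_empty v)
  have hfin : (Function.mulSupport fun v : Pr F => v.maxPowDividing I).Finite :=
    Ideal.hasFiniteMulSupport hI
  let T : Finset (Pr F) := hfin.toFinset
  have hprod : I = ∏ v ∈ T, v.asIdeal ^ n v := by
    rw [← Ideal.finprod_heightOneSpectrum_factorization hI]
    rw [finprod_eq_prod_of_mulSupport_subset]
    · rfl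
    · intro v hv
      simpa [T] using hv
  refine ⟨∏ v ∈ T, v.asIdeal ^ (n v / 2), ?_, ?_⟩
  · rw [Ne, ← Ideal.zero_eq_bot, Finset.prod_eq_zero_iff]
    rintro ⟨v, _, hv⟩
    exact pow_ne_zero (n v / 2) v.ne_bot hv
  · change I = _
    rw [← Finset.prod_pow, hprod]
    refine Finset.prod_congr rfl fun v _ => ?_
    rw [← pow_mul]
    congr 1
    have := heven v
    rw [Nat.not_odd_iff_even, Nat.even_iff] at this
    omega

/-- Every class has an integral representative. -/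
theorem exists_int_rep {F : Type} [Field F] [NumberField F] (q : Quad F) :
    ∃ (a : 𝓞 F) (d : Fˣ), a ≠ 0 ∧ (d : F) = algebraMap (𝓞 F) F a ∧ cls d = q := by
  obtain ⟨d, rfl⟩ := QuotientGroup.mk_surjective q
  obtain ⟨x, y, hy, hxy⟩ := IsFractionRing.div_surjective (A := 𝓞 F) (d : F)
  have hy0 : algebraMap (𝓞 F) F y ≠ 0 := by
    intro h0
    exact nonZeroDivisors.ne_zero hy
      ((map_eq_zero_iff _ (FaithfulSMul.algebraMap_injective (𝓞 F) F)).1 h0)
  have hx0 : x ≠ 0 := by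
    rintro rfl
    rw [map_zero, zero_div] at hxy
    exact d.ne_zero hxy.symm
  have hxx0 : algebraMap (𝓞 F) F x ≠ 0 := by
    intro h0
    exact hx0 ((map_eq_zero_iff _ (FaithfulSMul.algebraMap_injective (𝓞 F) F)).1 h0)
  refine ⟨x * y, d * (Units.mk0 _ hy0) ^ 2, mul_ne_zero hx0 (nonZeroDivisors.ne_zero hy), ?_, ?_⟩
  · rw [Units.val_mul, Units.val_pow_eq_pow_val, Units.val_mk0, ← hxy, map_mul]
    field_simp
  · unfold cls
    rw [QuotientGroup.eq]
    refine ⟨(Units.mk0 _ hy0)⁻¹, ?_⟩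
    simp [powMonoidHom, pow_two, mul_comm]

/-- the image of the units in the group of quadratic characters -/
noncomputable def unitMap (F : Type) [Field F] [NumberField F] : (𝓞 F)ˣ →* Quad F :=
  (QuotientGroup.mk' _).comp (Units.map (algebraMap (𝓞 F) F).toMonoidHom)

theorem unitMap_apply {F : Type} [Field F] [NumberField F] (u : (𝓞 F)ˣ) :
    unitMap F u = cls (Units.map (algebraMap (𝓞 F) F).toMonoidHom u) := rfl

theorem finite_range (F : Type) [Field F] [NumberField F] (hq : ∀ q : Quad F, q * q = 1) :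
    (Set.range (unitMap F)).Finite := by
  have h1 : Group.FG (𝓞 F)ˣ := Group.fg_iff_monoid_fg.2 inferInstance
  have h2 : Group.FG (unitMap F).range := inferInstance
  have h3 : ∀ x : (unitMap F).range, IsOfFinOrder x := by
    intro x
    rw [isOfFinOrder_iff_pow_eq_one]
    refine ⟨2, by norm_num, ?_⟩
    ext
    rw [Subgroup.coe_pow, pow_two, hq]
    rfl
  have h4 : Finite (unitMap F).range := CommGroup.finite_of_fg_isMulTorsion _ (fun x => h3 x)
  have h5 : ((unitMap F).range : Set (Quad F)).Finite := h4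
  rwa [MonoidHom.coe_range] at h5

theorem finite_ker (h : OrdS) (F : Type) [Field F] [NumberField F] :
    {q : Quad F | sp q = ∅}.Finite := by
  classical
  obtain ⟨h1, h2, h3, h4⟩ := h F
  have hex : ∀ q : Quad F, ∃ (a : 𝓞 F) (d : Fˣ) (b : Ideal (𝓞 F)), sp q = ∅ →
      a ≠ 0 ∧ (d : F) = algebraMap (𝓞 F) F a ∧ cls d = q ∧ b ≠ ⊥ ∧ Ideal.span {a} = b ^ 2 := by
    intro q
    by_cases hq : sp q = ∅
    · obtain ⟨a, d, ha, hd, hc⟩ := exists_int_rep q
      obtain ⟨b, hb, hab⟩ := exists_sq h a ha d hd (by rw [hc, hq])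
      exact ⟨a, d, b, fun _ => ⟨ha, hd, hc, hb, hab⟩⟩
    · exact ⟨0, 1, 0, fun h => absurd h hq⟩
  choose a d b hab using hex
  have hcl : ∀ q : Quad F, ∃ c : ClassGroup (𝓞 F), ∀ hb : b q ≠ ⊥,
      c = ClassGroup.mk0 ⟨b q, mem_nonZeroDivisors_iff_ne_zero.2 hb⟩ := by
    intro q
    by_cases hb : b q ≠ ⊥
    · exact ⟨ClassGroup.mk0 ⟨b q, mem_nonZeroDivisors_iff_ne_zero.2 hb⟩, fun _ => rfl⟩
    · exact ⟨1, fun h => absurd h hb⟩
  choose c hc using hcl
  have hsub : {q : Quad F | sp q = ∅} ⊆ ⋃ x : ClassGroup (𝓞 F), {q : Quad F | sp q = ∅ ∧ c q = x} := by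
    intro q hq
    exact Set.mem_iUnion.2 ⟨c q, hq, rfl⟩
  refine (Set.finite_iUnion fun x => ?_).subset hsub
  rcases Set.eq_empty_or_nonempty {q : Quad F | sp q = ∅ ∧ c q = x} with h0 | ⟨q0, hq0, hx0⟩
  · rw [h0]
    exact Set.finite_empty
  refine ((finite_range F h4).image fun t => q0 * t).subset ?_
  rintro q ⟨hq, hx⟩
  obtain ⟨ha, hd, hcd, hb, hI⟩ := hab q hq
  obtain ⟨ha', hd', hcd', hb', hI'⟩ := hab q0 hq0
  have hcc : ClassGroup.mk0 ⟨b q0, mem_nonZeroDivisors_iff_ne_zero.2 hb'⟩ =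
      ClassGroup.mk0 ⟨b q, mem_nonZeroDivisors_iff_ne_zero.2 hb⟩ := by
    rw [← hc q hb, ← hc q0 hb', hx, hx0]
  rw [ClassGroup.mk0_eq_mk0_iff] at hcc
  obtain ⟨x', y', hx', hy', hxy⟩ := hcc
  have hxy2 : Ideal.span {x' ^ 2 * a q0} = Ideal.span {y' ^ 2 * a q} := by
    rw [← Ideal.span_singleton_mul_span_singleton, ← Ideal.span_singleton_mul_span_singleton,
      ← Ideal.span_singleton_pow, ← Ideal.span_singleton_pow, hI, hI', ← mul_pow, ← mul_pow]
    exact congrArg (fun t => t ^ 2) hxy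
  rw [Ideal.span_singleton_eq_span_singleton] at hxy2
  obtain ⟨u, hu⟩ := hxy2
  refine ⟨unitMap F u, ⟨u, rfl⟩, ?_⟩
  change q0 * unitMap F u = q
  rw [← hcd, ← hcd', unitMap_apply]
  have hx0' : algebraMap (𝓞 F) F x' ≠ 0 := fun h0 =>
    hx' ((map_eq_zero_iff _ (FaithfulSMul.algebraMap_injective (𝓞 F) F)).1 h0)
  have hy0' : algebraMap (𝓞 F) F y' ≠ 0 := fun h0 =>
    hy' ((map_eq_zero_iff _ (FaithfulSMul.algebraMap_injective (𝓞 F) F)).1 h0)
  change (QuotientGroup.mk (d q0 * Units.map (algebraMap (𝓞 F) F).toMonoidHom u) : Quad F) =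
    QuotientGroup.mk (d q)
  rw [QuotientGroup.eq]
  refine ⟨Units.mk0 _ hx0' * (Units.mk0 _ hy0')⁻¹, ?_⟩
  have hu2 : algebraMap (𝓞 F) F x' ^ 2 * d q0 * algebraMap (𝓞 F) F u =
      algebraMap (𝓞 F) F y' ^ 2 * d q := by
    rw [hd, hd', ← map_pow, ← map_pow, ← map_mul, ← map_mul, ← map_mul, hu]
  rw [eq_comm, inv_mul_eq_iff_eq_mul]
  ext
  simp only [powMonoidHom_apply, Units.val_mul, Units.val_pow_eq_pow_val, Units.val_mk0,
    Units.val_inv_eq_inv_val, Units.coe_map]
  have : (d q : F) = (algebraMap (𝓞 F) F x') ^ 2 * ((algebraMap (𝓞 F) F y')⁻¹) ^ 2 * (d q0 : F) *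
      algebraMap (𝓞 F) F u := by
    field_simp
    linear_combination (-1 : F) * hu2
  rw [this]
  simp
  ring

/-- KFI. -/
theorem kfi (h : OrdS) : KfiS := by
  classical
  intro F _ _
  obtain ⟨h1, h2, h3, h4⟩ := h F
  have hfin := finite_ker h F
  refine ⟨({q : Quad F | sp q = ∅}).ncard + 1, Nat.succ_pos _, fun s => ?_⟩
  rcases Set.eq_empty_or_nonempty {q : Quad F | sp q = s} with h0 | ⟨q0, hq0⟩
  · rw [h0]
    exact ⟨Set.finite_empty, by simp⟩
  have hsub : {q : Quad F | sp q = s} ⊆ (fun t => q0 * t) '' {q : Quad F | sp q = ∅} := by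
    intro q hq
    refine ⟨q0 * q, ?_, ?_⟩
    · refine Finset.eq_empty_of_forall_notMem fun v hv => ?_
      rw [h3] at hv
      have e1 : sp q0 = s := hq0
      have e2 : sp q = s := hq
      rw [e1, e2] at hv
      exact hv Iff.rfl
    · change q0 * (q0 * q) = q
      rw [← mul_assoc, h4]
      exact one_mul q
  refine ⟨(hfin.image _).subset hsub, ?_⟩
  refine (Set.ncard_le_ncard hsub (hfin.image _)).trans ?_
  exact (Set.ncard_image_le hfin).trans (Nat.le_succ _)

end Pool.Agent.Lib.MP_50bb2e_nt.MT.H50
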