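import Pool.Agent.Lib.MP_50bb2e_nt.MT.Iface

/-!
Module SQT: tails of the sum of `1/N^2` over the nonzero ideals (dyadic blocks).
-/

open NumberField IsDedekindDomain Filter Topology

namespace Pool.Agent.Lib.MP_50bb2e_nt.MT.H50

/-- dyadic blocks -/
theorem block {F : Type} [Field F] [NumberField F] {C B : ℝ} (hC : 0 < C) (hB : 0 < B)
    (hfin : ∀ X : ℝ, (idealsLE F X).Finite)
    (hcnt : ∀ X : ℝ, 0 ≤ X → ((idealsLE F X).ncard : ℝ) ≤ C * X) (k : ℕ) :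
    ∀ J : Finset (Ideal (𝓞 F)), (∀ I ∈ J, I ≠ ⊥ ∧ B < (Ideal.absNorm I : ℝ) ∧
      (Ideal.absNorm I : ℝ) ≤ 2 ^ k * B) →
    ∑ I ∈ J, (1 : ℝ) / (Ideal.absNorm I : ℝ) ^ 2 ≤ 4 * C / B * (1 - 1 / 2 ^ k) := by
  classical
  induction k with
  | zero =>
    intro J hJ
    have : J = ∅ := by
      refine Finset.eq_empty_of_forall_notMem fun I hI => ?_
      obtain ⟨_, h1, h2⟩ := hJ I hI
      rw [pow_zero, one_mul] at h2
      exact absurd h1 (not_lt.2 h2)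
    rw [this]
    simp
  | succ k ih =>
    intro J hJ
    have hsplit := Finset.sum_filter_add_sum_filter_not J
      (fun I => (Ideal.absNorm I : ℝ) ≤ 2 ^ k * B) (fun I => (1 : ℝ) / (Ideal.absNorm I : ℝ) ^ 2)
    rw [← hsplit]
    have h1 := ih (J.filter fun I => (Ideal.absNorm I : ℝ) ≤ 2 ^ k * B) (by
      intro I hI
      rw [Finset.mem_filter] at hI
      obtain ⟨h1, h2, _⟩ := hJ I hI.1
      exact ⟨h1, h2, hI.2⟩)
    have hpos : (0 : ℝ) < 2 ^ k * B := by positivity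
    have h2 : ∑ I ∈ J.filter (fun I => ¬ (Ideal.absNorm I : ℝ) ≤ 2 ^ k * B),
        (1 : ℝ) / (Ideal.absNorm I : ℝ) ^ 2 ≤
        ((J.filter (fun I => ¬ (Ideal.absNorm I : ℝ) ≤ 2 ^ k * B)).card : ℝ) *
          (1 / (2 ^ k * B) ^ 2) := by
      rw [← nsmul_eq_mul]
      refine Finset.sum_le_card_nsmul _ _ _ fun I hI => ?_
      rw [Finset.mem_filter, not_le] at hI
      exact one_div_le_one_div_of_le (by positivity) (pow_le_pow_left₀ hpos.le hI.2.le 2)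
    have h3 : ((J.filter (fun I => ¬ (Ideal.absNorm I : ℝ) ≤ 2 ^ k * B)).card : ℝ) ≤
        C * (2 ^ (k + 1) * B) := by
      refine le_trans ?_ (hcnt (2 ^ (k + 1) * B) (by positivity))
      rw [← Set.ncard_coe_finset]
      refine Nat.cast_le.2 (Set.ncard_le_ncard ?_ (hfin _))
      intro I hI
      rw [Finset.mem_coe, Finset.mem_filter] at hI
      obtain ⟨h1, _, h3⟩ := hJ I hI.1
      exact ⟨h1, h3⟩
    have h4 : ∑ I ∈ J.filter (fun I => ¬ (Ideal.absNorm I : ℝ) ≤ 2 ^ k * B),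
        (1 : ℝ) / (Ideal.absNorm I : ℝ) ^ 2 ≤ C * (2 ^ (k + 1) * B) * (1 / (2 ^ k * B) ^ 2) :=
      h2.trans (mul_le_mul_of_nonneg_right h3 (by positivity))
    have h5 : C * (2 ^ (k + 1) * B) * (1 / (2 ^ k * B) ^ 2) =
        4 * C / B * (1 / 2 ^ k - 1 / 2 ^ (k + 1)) := by
      field_simp
      ring
    rw [h5] at h4
    calc _ ≤ 4 * C / B * (1 - 1 / 2 ^ k) + 4 * C / B * (1 / 2 ^ k - 1 / 2 ^ (k + 1)) :=
          add_le_add h1 h4
      _ = _ := by ring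

/-- SQT. -/
theorem sqt (h : CntS) : SqtS := by
  classical
  intro F _ _ e he
  obtain ⟨hfin, ⟨C, hC, hcnt⟩, _⟩ := h F
  refine ⟨4 * C / e, fun J hJ => ?_⟩
  have hB : 0 < 4 * C / e := by positivity
  obtain ⟨k, hk⟩ : ∃ k : ℕ, ∀ I ∈ J, (Ideal.absNorm I : ℝ) ≤ 2 ^ k * (4 * C / e) := by
    obtain ⟨M, hM⟩ : ∃ M : ℝ, ∀ I ∈ J, (Ideal.absNorm I : ℝ) ≤ M := by
      refine ⟨∑ I ∈ J, (Ideal.absNorm I : ℝ), fun I hI => ?_⟩
      exact Finset.single_le_sum (f := fun I => (Ideal.absNorm I : ℝ))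
        (fun _ _ => Nat.cast_nonneg _) hI
    obtain ⟨k, hk⟩ := pow_unbounded_of_one_lt (M / (4 * C / e)) (one_lt_two (α := ℝ))
    refine ⟨k, fun I hI => (hM I hI).trans ?_⟩
    exact ((div_lt_iff₀ hB).1 hk).le
  have h1 := block hC hB hfin hcnt k J fun I hI => ⟨(hJ I hI).1, (hJ I hI).2, hk I hI⟩
  refine h1.trans ?_
  have h2 : 4 * C / (4 * C / e) = e := by
    field_simp
  rw [h2]
  have h3 : (0 : ℝ) ≤ 1 / 2 ^ k := by positivity
  nlinarith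

end Pool.Agent.Lib.MP_50bb2e_nt.MT.H50
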